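import Mathlib

/-!
# Real zero polynomials and their restrictions: definitions
-/

set_option autoImplicit false

namespace Pool.Agent.N95.RZ

open MvPolynomial

/-- `f` is a real zero polynomial: whenever `a` is a real point and `l` a complex number with
`f(l a) = 0`, the number `l` is real. -/
def IsRealZero {σ : Type} (f : MvPolynomial σ ℝ) : Prop :=
  ∀ (a : σ → ℝ) (l : ℂ), aeval (fun i => l * (a i : ℂ)) f = 0 → ∃ t : ℝ, l = (t : ℂ)

/-- `p(x, 0)` for a polynomial `p` in `x = (x_1, x_2)` and `k` further variables. -/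
noncomputable def atZero {k : ℕ} (p : MvPolynomial (Fin 2 ⊕ Fin k) ℝ) : MvPolynomial (Fin 2) ℝ :=
  aeval (Sum.elim (fun i => X i) (fun _ => 0)) p

/-- `r(x, y, 0)` for a polynomial `r` in `x = (x_1, x_2)`, `y = (y_1, ..., y_m)` and
`z = (z_1, ..., z_n)`. -/
noncomputable def zToZero {m n : ℕ} (r : MvPolynomial (Fin 2 ⊕ (Fin m ⊕ Fin n)) ℝ) :
    MvPolynomial (Fin 2 ⊕ Fin m) ℝ :=
  aeval (Sum.elim (fun i => X (Sum.inl i)) (Sum.elim (fun j => X (Sum.inr j)) (fun _ => 0))) r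

/-- `r(x, 0, z)` for a polynomial `r` in `x = (x_1, x_2)`, `y = (y_1, ..., y_m)` and
`z = (z_1, ..., z_n)`. -/
noncomputable def yToZero {m n : ℕ} (r : MvPolynomial (Fin 2 ⊕ (Fin m ⊕ Fin n)) ℝ) :
    MvPolynomial (Fin 2 ⊕ Fin n) ℝ :=
  aeval (Sum.elim (fun i => X (Sum.inl i)) (Sum.elim (fun _ => 0) (fun j => X (Sum.inr j)))) r

end Pool.Agent.N95.RZ
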