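import Pool.Agent.N95.RZ.Struct

set_option autoImplicit false

namespace Pool.Agent.N95.RZ

open MvPolynomial

/-- Real zero polynomials restricted to a line through the origin. -/
theorem line_real {σ : Type} [Fintype σ] {f : MvPolynomial σ ℝ} (hf : IsRealZero f) (v : σ → ℝ)
    {al be de : ℝ}
    (h : ∀ t : ℝ, eval (fun i => t * v i) f = 1 + al * t + be * t ^ 2 + de * t ^ 3) :
    ∀ l : ℂ, 1 + al * l + be * l ^ 2 + de * l ^ 3 = 0 → ∃ t : ℝ, l = (t : ℂ) := by
  intro l hl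
  apply hf v l
  set P : Polynomial ℝ := aeval (fun i => Polynomial.X * Polynomial.C (v i)) f with hP
  set Q : Polynomial ℝ := 1 + Polynomial.C al * Polynomial.X + Polynomial.C be * Polynomial.X ^ 2 +
    Polynomial.C de * Polynomial.X ^ 3 with hQ
  have hPe : ∀ t : ℝ, Polynomial.eval t P = eval (fun i => t * v i) f := by
    intro t
    have h := congrArg (fun φ : MvPolynomial σ ℝ →+* ℝ => φ f)
      (MvPolynomial.ringHom_ext (f := (Polynomial.evalRingHom t).comp
        (aeval (fun i => Polynomial.X * Polynomial.C (v i)) :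
          MvPolynomial σ ℝ →ₐ[ℝ] Polynomial ℝ).toRingHom) (g := eval (fun i => t * v i))
        (by intro r; simp) (by intro i; simp; ring))
    exact h
  have hPQ : P = Q := by
    apply Polynomial.funext
    intro t
    rw [hPe, h t, hQ]
    simp
  have hPc : Polynomial.aeval l P = aeval (fun i => l * (v i : ℂ)) f := by
    have h := congrArg (fun φ : MvPolynomial σ ℝ →ₐ[ℝ] ℂ => φ f)
      (MvPolynomial.algHom_ext (f := (Polynomial.aeval l).comp
        (aeval (fun i => Polynomial.X * Polynomial.C (v i)) :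
          MvPolynomial σ ℝ →ₐ[ℝ] Polynomial ℝ)) (g := aeval (fun i => l * (v i : ℂ)))
        (by intro i; simp; ring))
    exact h
  rw [← hPc, hPQ, hQ]
  simpa using hl

/-- A real quadratic inequality in one variable determines the sign of the leading coefficient. -/
theorem lead_nonneg {A B C : ℝ} (h : ∀ t : ℝ, 0 ≤ A * t ^ 2 + B * t + C) : 0 ≤ A := by
  by_contra hA
  push Not at hA
  have h1 := h ((|B| + |C| + 1) / (-A) + 1)
  set s := (|B| + |C| + 1) / (-A) + 1 with hs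
  have hA' : 0 < -A := by linarith
  have hs1 : 1 ≤ s := by
    have : 0 ≤ (|B| + |C| + 1) / (-A) := by positivity
    linarith
  have hAs : |B| + |C| + 1 ≤ (-A) * s := by
    rw [hs, mul_add, mul_div_cancel₀ _ hA'.ne']; linarith
  have e1 : (|B| + |C| + 1) * s ≤ (-A) * s * s := mul_le_mul_of_nonneg_right hAs (by linarith)
  have e2 := le_abs_self B
  have e3 := le_abs_self C
  have e4 : |C| ≤ |C| * s := by nlinarith [abs_nonneg C]
  have e5 : B * s ≤ |B| * s := mul_le_mul_of_nonneg_right e2 (by linarith)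
  nlinarith

theorem pow_pos_of_ne (S : ℝ) (h : S ≠ 0) : 0 < S ^ 2 := by positivity

theorem lin_zero {B C : ℝ} (h : ∀ t : ℝ, 0 ≤ B * t + C) : B = 0 := by
  by_contra hB
  have h1 := h (-(C + 1) / B)
  rw [mul_div_cancel₀ _ hB] at h1
  linarith

theorem no_amalgam : ¬ ∃ r : MvPolynomial T3 ℝ, IsRealZero r ∧ r.totalDegree ≤ 3 ∧
    zToZero r = pp ∧ yToZero r = qq := by
  rintro ⟨r, hr, hdeg, hp, hq⟩
  obtain ⟨a, b, c, e, g, hrv⟩ := structure_r r hdeg hp hq
  -- the basic inequalities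
  have main : ∀ x₁ x₂ y z : ℝ, ∀ al be de : ℝ, al = y + z →
      be = -x₁ ^ 2 - x₂ ^ 2 - y * x₁ + a * y * z →
      de = -z * x₂ ^ 2 + y * z * (b * x₁ + c * x₂ + e * y + g * z) →
      0 ≤ be ^ 2 - 3 * al * de ∧
      0 ≤ al ^ 2 * be ^ 2 - 4 * be ^ 3 - 4 * al ^ 3 * de + 18 * al * be * de - 27 * de ^ 2 ∧
      (de = 0 → 4 * be ≤ al ^ 2) := by
    intro x₁ x₂ y z al be de hal hbe hde
    apply cubic_ineq
    apply line_real hr (Sum.elim ![x₁, x₂] (Sum.elim ![y] ![z]))
    intro t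
    rw [hrv, hal, hbe, hde]
    simp
    ring
  -- `e = 0`
  have he : e = 0 := by
    by_contra hne
    have h1 : ∀ s : ℝ, 0 ≤ (-3 * e ^ 2) * s ^ 2 + (e ^ 2 * a ^ 2 - 3 * e ^ 2 * (e + g)) * s
        + (-3 * e ^ 3 * g) ∨ s ≤ 0 := by
      intro s
      rcases le_or_gt s 0 with hs | hs
      · exact Or.inr hs
      · left
        have := (main 0 0 s e _ _ _ rfl rfl rfl).1
        have h2 : 0 ≤ s * ((-3 * e ^ 2) * s ^ 2 + (e ^ 2 * a ^ 2 - 3 * e ^ 2 * (e + g)) * s
          + (-3 * e ^ 3 * g)) := by nlinarith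
        exact nonneg_of_mul_nonneg_right h2 hs
    have hpos : 0 < e ^ 2 := by positivity
    -- substitute `s = t² + 1`
    set B := e ^ 2 * a ^ 2 - 3 * e ^ 2 * (e + g) with hB
    set C := -3 * e ^ 3 * g with hC
    have h2 := h1 ((|B| + |C| + 1) / (3 * e ^ 2) + 1)
    set s := (|B| + |C| + 1) / (3 * e ^ 2) + 1 with hs
    have hs1 : 1 ≤ s := by
      have : 0 ≤ (|B| + |C| + 1) / (3 * e ^ 2) := by positivity
      linarith
    have hAs : |B| + |C| + 1 ≤ (3 * e ^ 2) * s := by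
      rw [hs, mul_add, mul_div_cancel₀ _ (by positivity)]; linarith
    have e1 : (|B| + |C| + 1) * s ≤ (3 * e ^ 2) * s * s := mul_le_mul_of_nonneg_right hAs (by linarith)
    have e2 := le_abs_self B
    have e3 := le_abs_self C
    have e4 : |C| ≤ |C| * s := by nlinarith [abs_nonneg C]
    have e5 : B * s ≤ |B| * s := mul_le_mul_of_nonneg_right e2 (by linarith)
    rcases h2 with h2 | h2
    · nlinarith
    · linarith
  subst he
  have hg : g = 0 := by
    by_contra hne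
    have h1 : ∀ s : ℝ, 0 ≤ (-3 * g ^ 2) * s ^ 2 + (g ^ 2 * a ^ 2 - 3 * g ^ 3) * s ∨ s ≤ 0 := by
      intro s
      rcases le_or_gt s 0 with hs | hs
      · exact Or.inr hs
      · left
        have := (main 0 0 g s _ _ _ rfl rfl rfl).1
        have h2 : 0 ≤ s * ((-3 * g ^ 2) * s ^ 2 + (g ^ 2 * a ^ 2 - 3 * g ^ 3) * s) := by nlinarith
        exact nonneg_of_mul_nonneg_right h2 hs
    have hpos : 0 < g ^ 2 := by positivity
    set B := g ^ 2 * a ^ 2 - 3 * g ^ 3 with hB
    have h2 := h1 ((|B| + 1) / (3 * g ^ 2) + 1)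
    set s := (|B| + 1) / (3 * g ^ 2) + 1 with hs
    have hs1 : 1 ≤ s := by
      have : 0 ≤ (|B| + 1) / (3 * g ^ 2) := by positivity
      linarith
    have hAs : |B| + 1 ≤ (3 * g ^ 2) * s := by
      rw [hs, mul_add, mul_div_cancel₀ _ (by positivity)]; linarith
    have e1 : (|B| + 1) * s ≤ (3 * g ^ 2) * s * s := mul_le_mul_of_nonneg_right hAs (by linarith)
    have e2 := le_abs_self B
    have e5 : B * s ≤ |B| * s := mul_le_mul_of_nonneg_right e2 (by linarith)
    rcases h2 with h2 | h2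
    · nlinarith
    · linarith
  subst hg
  -- `b = 0`
  have hb : b = 0 := by
    have h1 : ∀ x₁ : ℝ, 0 ≤ (-3 * b) * x₁ + a ^ 2 := by
      intro x₁
      have h2 : ∀ z : ℝ, 0 ≤ (a ^ 2 - 3 * (b * x₁)) * z ^ 2 +
          (2 * a * (-x₁ ^ 2 - x₁) - 3 * (b * x₁)) * z + (-x₁ ^ 2 - x₁) ^ 2 := by
        intro z
        have := (main x₁ 0 1 z _ _ _ rfl rfl rfl).1
        nlinarith
      have := lead_nonneg h2
      linarith
    have := lin_zero h1
    linarith
  subst hb
  -- `c = 0`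
  have hc : c = 0 := by
    have h1 : ∀ x₂ : ℝ, 0 ≤ (-3 * c) * x₂ + a ^ 2 := by
      intro x₂
      have h2 : ∀ y : ℝ, 0 ≤ (a ^ 2 - 3 * (c * x₂)) * y ^ 2 +
          (2 * a * (-x₂ ^ 2) - 3 * (c * x₂) + 3 * x₂ ^ 2) * y + (x₂ ^ 4 + 3 * x₂ ^ 2) := by
        intro y
        have := (main 0 x₂ y 1 _ _ _ rfl rfl rfl).1
        nlinarith
      have := lead_nonneg h2
      linarith
    have := lin_zero h1
    linarith
  subst hc
  -- `a = 1 / 2`
  have ha : a = 1 / 2 := by
    have h1 : ∀ y : ℝ, 0 ≤ (2 - 4 * a) * y + 1 := by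
      intro y
      have := (main (-y / 2) 0 y 1 _ _ _ rfl rfl rfl).2.2 (by ring)
      nlinarith
    have := lin_zero h1
    linarith
  subst ha
  -- the contradiction
  have := (main 2 1 (-4) 1 _ _ _ rfl rfl rfl).2.1
  norm_num at this

/-- `p` is a real zero polynomial. -/
theorem pp_realZero : IsRealZero pp := by
  intro a l hl
  set x₁ := a (Sum.inl 0) with hx₁
  set x₂ := a (Sum.inl 1) with hx₂
  set y := a (Sum.inr 0) with hy
  have h : 1 - (l * x₁) ^ 2 - (l * x₂) ^ 2 + (l * y) * (1 - l * x₁) = 0 := by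
    simpa [pp] using hl
  obtain ⟨u, v⟩ := l
  refine ⟨u, ?_⟩
  have hre := congrArg Complex.re h
  have him := congrArg Complex.im h
  simp [pow_two] at hre him
  have hv : v = 0 := by
    by_contra hv
    -- `im`: `y v = 2 (x₁² + x₂² + y x₁) u v`
    have h1 : y - 2 * (x₁ ^ 2 + x₂ ^ 2 + y * x₁) * u = 0 := by
      apply mul_left_cancel₀ hv
      rw [mul_zero]
      linear_combination him
    have h2 : 1 + y * u - (x₁ ^ 2 + x₂ ^ 2 + y * x₁) * (u ^ 2 - v ^ 2) = 0 := by
      linear_combination hre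
    set S := x₁ ^ 2 + x₂ ^ 2 + y * x₁ with hS
    have h3 : 1 + S * (u ^ 2 + v ^ 2) = 0 := by linear_combination h2 - u * h1
    have h4 : y ^ 2 + 4 * S = (y + 2 * x₁) ^ 2 + 4 * x₂ ^ 2 := by rw [hS]; ring
    have h5 : y = 2 * S * u := by linarith
    have h6 : 0 ≤ 4 * S ^ 2 * u ^ 2 + 4 * S := by
      have : 0 ≤ y ^ 2 + 4 * S := by rw [h4]; positivity
      rw [h5] at this
      linarith
    have hv2 : 0 < v ^ 2 := by positivity
    have hS0 : S < 0 := by
      by_contra hS0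
      push Not at hS0
      have : 0 ≤ S * (u ^ 2 + v ^ 2) := by positivity
      linarith
    -- `S² u² + S = S (S u² + 1) = - S² v² < 0`
    have h7 : 4 * S ^ 2 * u ^ 2 + 4 * S = -4 * S ^ 2 * v ^ 2 := by
      linear_combination 4 * S * h3
    have h8 : 0 < S ^ 2 * v ^ 2 := mul_pos (pow_pos_of_ne S hS0.ne) hv2
    linarith
  apply Complex.ext <;> simp [hv]

/-- `q` is a real zero polynomial. -/
theorem qq_realZero : IsRealZero qq := by
  intro a l hl
  set x₁ := a (Sum.inl 0) with hx₁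
  set x₂ := a (Sum.inl 1) with hx₂
  set z := a (Sum.inr 0) with hz
  have h : 1 - (l * x₁) ^ 2 - (l * x₂) ^ 2 + (l * z) * (1 - (l * x₂) ^ 2) = 0 := by
    simpa [qq] using hl
  have hl0 : l ≠ 0 := by
    intro h0
    rw [h0] at h
    simp at h
  -- `m = 1 / l`
  set m := l⁻¹ with hm
  have hm0 : m ≠ 0 := inv_ne_zero hl0
  have hlm : l = m⁻¹ := by rw [hm, inv_inv]
  have h' : m ^ 2 * (m + z) - x₁ ^ 2 * m - x₂ ^ 2 * (m + z) = 0 := by
    have : m ^ 2 * (m + z) - x₁ ^ 2 * m - x₂ ^ 2 * (m + z) =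
        m ^ 3 * (1 - (l * x₁) ^ 2 - (l * x₂) ^ 2 + (l * z) * (1 - (l * x₂) ^ 2)) := by
      rw [hlm]; field_simp
      ring
    rw [this, h, mul_zero]
  have hmreal : m.im = 0 := by
    by_contra hv
    obtain ⟨u, v⟩ := m
    simp only at hv
    have hre := congrArg Complex.re h'
    have him := congrArg Complex.im h'
    simp [pow_two] at hre him
    have hv2 : 0 < v ^ 2 := by positivity
    -- multiply by the conjugate of `m (m + z)` and take imaginary parts
    have key : v * ((u ^ 2 + v ^ 2) * ((u + z) ^ 2 + v ^ 2) + x₁ ^ 2 * (u ^ 2 + v ^ 2)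
        + x₂ ^ 2 * ((u + z) ^ 2 + v ^ 2)) = 0 := by
      linear_combination (u * (u + z) - v * v) * him - (u * v + v * (u + z)) * hre
    have hpos : 0 < (u ^ 2 + v ^ 2) * ((u + z) ^ 2 + v ^ 2) + x₁ ^ 2 * (u ^ 2 + v ^ 2)
        + x₂ ^ 2 * ((u + z) ^ 2 + v ^ 2) := by
      have g1 : 0 < u ^ 2 + v ^ 2 := by linarith [sq_nonneg u]
      have g2 : 0 < (u + z) ^ 2 + v ^ 2 := by linarith [sq_nonneg (u + z)]
      positivity
    rcases mul_eq_zero.1 key with h1 | h1
    · exact hv h1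
    · exact absurd h1 hpos.ne'
  refine ⟨l.re, ?_⟩
  have : l.im = 0 := by
    rw [hlm, Complex.inv_im, hmreal]; simp
  apply Complex.ext <;> simp [this]

theorem pp_deg : pp.totalDegree ≤ 3 := by
  have hX : ∀ i : Fin 2 ⊕ Fin 1, (X i : MvPolynomial (Fin 2 ⊕ Fin 1) ℝ).totalDegree ≤ 1 :=
    fun i => (totalDegree_X i).le
  have hX2 : ∀ i : Fin 2 ⊕ Fin 1, (X i ^ 2 : MvPolynomial (Fin 2 ⊕ Fin 1) ℝ).totalDegree ≤ 2 :=
    fun i => le_trans (totalDegree_pow _ _) (by have := hX i; omega)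
  have h1 : (1 : MvPolynomial (Fin 2 ⊕ Fin 1) ℝ).totalDegree ≤ 0 := by simp
  refine le_trans (totalDegree_add _ _) (max_le ?_ ?_)
  · refine le_trans (totalDegree_sub _ _) (max_le ?_ (by have := hX2 (Sum.inl 1); omega))
    exact le_trans (totalDegree_sub _ _)
      (max_le (by omega) (by have := hX2 (Sum.inl 0); omega))
  · refine le_trans (totalDegree_mul _ _) ?_
    have h3 : (1 - X (Sum.inl 0) : MvPolynomial (Fin 2 ⊕ Fin 1) ℝ).totalDegree ≤ 1 :=
      le_trans (totalDegree_sub _ _) (max_le (by omega) (hX _))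
    have := hX (Sum.inr 0)
    omega

theorem qq_deg : qq.totalDegree ≤ 3 := by
  have hX : ∀ i : Fin 2 ⊕ Fin 1, (X i : MvPolynomial (Fin 2 ⊕ Fin 1) ℝ).totalDegree ≤ 1 :=
    fun i => (totalDegree_X i).le
  have hX2 : ∀ i : Fin 2 ⊕ Fin 1, (X i ^ 2 : MvPolynomial (Fin 2 ⊕ Fin 1) ℝ).totalDegree ≤ 2 :=
    fun i => le_trans (totalDegree_pow _ _) (by have := hX i; omega)
  have h1 : (1 : MvPolynomial (Fin 2 ⊕ Fin 1) ℝ).totalDegree ≤ 0 := by simp
  refine le_trans (totalDegree_add _ _) (max_le ?_ ?_)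
  · refine le_trans (totalDegree_sub _ _) (max_le ?_ (by have := hX2 (Sum.inl 1); omega))
    exact le_trans (totalDegree_sub _ _)
      (max_le (by omega) (by have := hX2 (Sum.inl 0); omega))
  · refine le_trans (totalDegree_mul _ _) ?_
    have h3 : (1 - X (Sum.inl 1) ^ 2 : MvPolynomial (Fin 2 ⊕ Fin 1) ℝ).totalDegree ≤ 2 :=
      le_trans (totalDegree_sub _ _) (max_le (by omega) (hX2 _))
    have := hX (Sum.inr 0)
    omega

theorem agree : atZero pp = atZero qq := by
  simp [atZero, pp, qq]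

end Pool.Agent.N95.RZ
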