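import Pool.Agent.N95.RZ.Defs

set_option autoImplicit false

namespace Pool.Agent.N95.RZ

open MvPolynomial

/-- A monic real cubic polynomial has a real root. -/
theorem cubic_real_root (al be de : ℝ) : ∃ r : ℝ, r ^ 3 + al * r ^ 2 + be * r + de = 0 := by
  set M : ℝ := 1 + |al| + |be| + |de| with hM
  have h1 : 1 ≤ M := by have := abs_nonneg al; have := abs_nonneg be; have := abs_nonneg de; linarith
  have hcont : Continuous (fun r : ℝ => r ^ 3 + al * r ^ 2 + be * r + de) := by fun_prop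
  have hM2 : M ≤ M ^ 2 := by nlinarith
  have key : |al| * M ^ 2 + |be| * M + |de| ≤ (M - 1) * M ^ 2 := by
    have e1 : |be| * M ≤ |be| * M ^ 2 := mul_le_mul_of_nonneg_left hM2 (abs_nonneg _)
    have e2 : |de| * 1 ≤ |de| * M ^ 2 :=
      mul_le_mul_of_nonneg_left (by linarith) (abs_nonneg _)
    have e3 : (M - 1) * M ^ 2 = |al| * M ^ 2 + |be| * M ^ 2 + |de| * M ^ 2 := by
      rw [hM]; ring
    linarith
  have hpos : 0 ≤ M ^ 3 + al * M ^ 2 + be * M + de := by
    have e1 : -(|al| * M ^ 2) ≤ al * M ^ 2 := by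
      nlinarith [neg_abs_le al, sq_nonneg M]
    have e2 : -(|be| * M) ≤ be * M := by nlinarith [neg_abs_le be]
    have e3 := neg_abs_le de
    nlinarith
  have hneg : (-M) ^ 3 + al * (-M) ^ 2 + be * (-M) + de ≤ 0 := by
    have e1 : al * M ^ 2 ≤ |al| * M ^ 2 := by
      nlinarith [le_abs_self al, sq_nonneg M]
    have e2 : -(be * M) ≤ |be| * M := by nlinarith [neg_abs_le be]
    have e3 := le_abs_self de
    nlinarith
  have := intermediate_value_Icc (by linarith : -M ≤ M) hcont.continuousOn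
  obtain ⟨r, -, hr⟩ := this ⟨hneg, hpos⟩
  exact ⟨r, hr⟩

/-- If all complex roots of `1 + α T + β T² + δ T³` are real, then the discriminant is nonnegative
and Newton's inequality holds. -/
theorem cubic_ineq {al be de : ℝ}
    (h : ∀ l : ℂ, 1 + al * l + be * l ^ 2 + de * l ^ 3 = 0 → ∃ t : ℝ, l = (t : ℂ)) :
    0 ≤ be ^ 2 - 3 * al * de ∧
    0 ≤ al ^ 2 * be ^ 2 - 4 * be ^ 3 - 4 * al ^ 3 * de + 18 * al * be * de - 27 * de ^ 2 ∧
    (de = 0 → 4 * be ≤ al ^ 2) := by
  obtain ⟨r, hr⟩ := cubic_real_root al be de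
  -- `x³ + α x² + β x + δ = (x - r)(x² + u x + v)`
  set u := al + r with hu
  set v := be + r * u with hv
  have hal : al = u - r := by rw [hu]; ring
  have hbe : be = v - r * u := by rw [hv]; ring
  have hde : de = -(r * v) := by rw [hv, hu]; linarith
  have hdisc : 0 ≤ u ^ 2 - 4 * v := by
    by_contra hneg
    push Not at hneg
    set w := Real.sqrt (4 * v - u ^ 2) with hw
    have hw2 : w ^ 2 = 4 * v - u ^ 2 := Real.sq_sqrt (by linarith)
    have hwpos : 0 < w := Real.sqrt_pos.2 (by linarith)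
    set x : ℂ := ⟨-u / 2, w / 2⟩ with hx
    have hx0 : x ^ 2 + u * x + v = 0 := by
      apply Complex.ext
      · simp [hx, pow_two]; nlinarith
      · simp [hx, pow_two]; ring
    have hxne : x ≠ 0 := by
      intro h0
      have := congrArg Complex.im h0
      simp [hx] at this
      linarith
    have hroot : (1 : ℂ) + al * x⁻¹ + be * x⁻¹ ^ 2 + de * x⁻¹ ^ 3 = 0 := by
      have h3 : x ^ 3 + al * x ^ 2 + be * x + de = 0 := by
        rw [hal, hbe, hde]
        push_cast
        linear_combination (x - r) * hx0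
      field_simp
      linear_combination h3
    obtain ⟨t, ht⟩ := h _ hroot
    have hxt : x = ((t⁻¹ : ℝ) : ℂ) := by
      rw [Complex.ofReal_inv, ← ht, inv_inv]
    have := congrArg Complex.im hxt
    simp [hx] at this
    linarith
  refine ⟨?_, ?_, ?_⟩
  · have : be ^ 2 - 3 * al * de = v ^ 2 + u * v * r + r ^ 2 * (u ^ 2 - 3 * v) := by
      rw [hal, hbe, hde]; ring
    rw [this]
    have e2 : v ^ 2 + u * v * r + r ^ 2 * (u ^ 2 - 3 * v) =
      (v + u * r / 2) ^ 2 + r ^ 2 * (3 / 4) * (u ^ 2 - 4 * v) := by ring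
    rw [e2]; positivity
  · have : al ^ 2 * be ^ 2 - 4 * be ^ 3 - 4 * al ^ 3 * de + 18 * al * be * de - 27 * de ^ 2 =
      (u ^ 2 - 4 * v) * (r ^ 2 + u * r + v) ^ 2 := by
      rw [hal, hbe, hde]; ring
    rw [this]
    positivity
  · intro h0
    rw [hde, neg_eq_zero, mul_eq_zero] at h0
    rcases h0 with h0 | h0
    · rw [hal, hbe, h0]; nlinarith
    · rw [hal, hbe, h0]; nlinarith [sq_nonneg (u + r)]

end Pool.Agent.N95.RZ
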