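import Pool.Agent.N95.RZ.Main

set_option autoImplicit false

namespace Pool.Agent.N95.RZ

open MvPolynomial

section gen
variable {σ : Type} [DecidableEq σ]

/-- Setting the variable `i` to zero. -/
noncomputable def kill (i : σ) : MvPolynomial σ ℝ →ₐ[ℝ] MvPolynomial σ ℝ :=
  aeval (fun j => if j = i then 0 else X j)

theorem X_dvd_sub_kill (i : σ) (s : MvPolynomial σ ℝ) : X i ∣ s - kill i s := by
  induction s using MvPolynomial.induction_on with
  | C a => simp [kill]
  | add p q hp hq =>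
    have : p + q - kill i (p + q) = (p - kill i p) + (q - kill i q) := by rw [map_add]; ring
    rw [this]; exact dvd_add hp hq
  | mul_X p j hp =>
    by_cases hj : j = i
    · subst hj
      have : kill j (p * X j) = 0 := by simp [kill]
      rw [this, sub_zero]
      exact dvd_mul_left _ _
    · have : p * X j - kill i (p * X j) = (p - kill i p) * X j := by
        have h2 : kill i (X j : MvPolynomial σ ℝ) = X j := by simp [kill, hj]
        rw [map_mul, h2]; ring
      rw [this]; exact Dvd.dvd.mul_right hp _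

theorem eq_mul_of_kill {i : σ} {s : MvPolynomial σ ℝ} (h : kill i s = 0) :
    ∃ t, s = X i * t := by
  have := X_dvd_sub_kill i s
  rw [h, sub_zero] at this
  exact this

theorem eq_mul_mul_of_kill {i j : σ} (hij : i ≠ j) {s : MvPolynomial σ ℝ} (hi : kill i s = 0)
    (hj : kill j s = 0) : ∃ t, s = X i * (X j * t) := by
  obtain ⟨t, ht⟩ := eq_mul_of_kill hi
  have h1 : kill j t = 0 := by
    rw [ht, map_mul] at hj
    have h2 : kill j (X i : MvPolynomial σ ℝ) = X i := by simp [kill, hij]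
    rw [h2] at hj
    exact (mul_eq_zero.1 hj).resolve_left (X_ne_zero i)
  obtain ⟨t', ht'⟩ := eq_mul_of_kill h1
  exact ⟨t', by rw [ht, ht']⟩

/-- A polynomial of total degree at most one is an affine function. -/
theorem affine_of_totalDegree_le_one [Fintype σ] {k : MvPolynomial σ ℝ} (hk : k.totalDegree ≤ 1) :
    ∃ (c : ℝ) (b : σ → ℝ), ∀ v : σ → ℝ, eval v k = c + ∑ i, b i * v i := by
  have hmon : ∀ m ∈ k.support, ∃ (c : ℝ) (b : σ → ℝ), ∀ v : σ → ℝ,
      eval v (monomial m (coeff m k)) = c + ∑ i, b i * v i := by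
    intro m hm
    have hdeg : (m.sum fun _ e => e) ≤ 1 := le_trans (le_totalDegree hm) hk
    rw [Finsupp.sum_fintype _ _ (fun _ => rfl)] at hdeg
    by_cases h0 : m = 0
    · subst h0
      exact ⟨coeff 0 k, 0, fun v => by simp⟩
    · obtain ⟨i, hi⟩ : ∃ i, m i ≠ 0 := by
        by_contra hcon
        push Not at hcon
        exact h0 (Finsupp.ext hcon)
      have hm1 : m = Finsupp.single i 1 := by
        have h1 : m i ≤ ∑ j, m j := Finset.single_le_sum (fun j _ => Nat.zero_le _) (Finset.mem_univ i)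
        ext j
        by_cases hj : j = i
        · subst hj
          simp only [Finsupp.single_eq_same]
          omega
        · rw [Finsupp.single_eq_of_ne hj]
          have h2 : m i + m j ≤ ∑ j, m j := by
            have := Finset.sum_le_sum_of_subset (f := fun j => m j) (Finset.subset_univ {i, j})
            rw [Finset.sum_pair (Ne.symm hj)] at this
            exact this
          omega
      refine ⟨0, fun j => if j = i then coeff m k else 0, fun v => ?_⟩
      rw [eval_monomial]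
      rw [hm1]
      simp
  classical
  choose! c b hcb using hmon
  refine ⟨∑ m ∈ k.support, c m, fun i => ∑ m ∈ k.support, b m i, fun v => ?_⟩
  conv_lhs => rw [k.as_sum]
  rw [map_sum, Finset.sum_congr rfl (fun m hm => hcb m hm v), Finset.sum_add_distrib]
  congr 1
  rw [Finset.sum_comm]
  refine Finset.sum_congr rfl fun i _ => ?_
  rw [Finset.sum_mul]

end gen

/-- Index types. -/
abbrev T3 := Fin 2 ⊕ (Fin 1 ⊕ Fin 1)

/-- The polynomial `p = 1 - x₁² - x₂² + y (1 - x₁)`. -/
noncomputable def pp : MvPolynomial (Fin 2 ⊕ Fin 1) ℝ :=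
  1 - X (Sum.inl 0) ^ 2 - X (Sum.inl 1) ^ 2 + X (Sum.inr 0) * (1 - X (Sum.inl 0))

/-- The polynomial `q = 1 - x₁² - x₂² + z (1 - x₂²)`. -/
noncomputable def qq : MvPolynomial (Fin 2 ⊕ Fin 1) ℝ :=
  1 - X (Sum.inl 0) ^ 2 - X (Sum.inl 1) ^ 2 + X (Sum.inr 0) * (1 - X (Sum.inl 1) ^ 2)

theorem structure_r (r : MvPolynomial T3 ℝ) (hdeg : r.totalDegree ≤ 3)
    (hp : zToZero r = pp) (hq : yToZero r = qq) :
    ∃ (a b c e g : ℝ), ∀ v : T3 → ℝ, eval v r =
      1 - v (Sum.inl 0) ^ 2 - v (Sum.inl 1) ^ 2 + v (Sum.inr (Sum.inl 0)) * (1 - v (Sum.inl 0))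
      + v (Sum.inr (Sum.inr 0)) * (1 - v (Sum.inl 1) ^ 2)
      + v (Sum.inr (Sum.inl 0)) * v (Sum.inr (Sum.inr 0)) *
        (a + b * v (Sum.inl 0) + c * v (Sum.inl 1) + e * v (Sum.inr (Sum.inl 0))
          + g * v (Sum.inr (Sum.inr 0))) := by
  classical
  have hz : kill (Sum.inr (Sum.inr 0)) r =
      rename (Sum.map id (Sum.inl : Fin 1 → Fin 1 ⊕ Fin 1)) (zToZero r) := by
    have : (kill (Sum.inr (Sum.inr 0)) : MvPolynomial T3 ℝ →ₐ[ℝ] MvPolynomial T3 ℝ) =
        (rename (Sum.map id (Sum.inl : Fin 1 → Fin 1 ⊕ Fin 1))).comp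
          (aeval (Sum.elim (fun i => X (Sum.inl i)) (Sum.elim (fun j => X (Sum.inr j))
            (fun _ => 0)))) := by
      apply algHom_ext
      rintro (i | (i | i))
      · simp [kill]
      · simp [kill]
      · have : i = 0 := Subsingleton.elim _ _
        simp [kill, this]
    exact congrArg (fun φ => φ r) this
  have hy : kill (Sum.inr (Sum.inl 0)) r =
      rename (Sum.map id (Sum.inr : Fin 1 → Fin 1 ⊕ Fin 1)) (yToZero r) := by
    have : (kill (Sum.inr (Sum.inl 0)) : MvPolynomial T3 ℝ →ₐ[ℝ] MvPolynomial T3 ℝ) =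
        (rename (Sum.map id (Sum.inr : Fin 1 → Fin 1 ⊕ Fin 1))).comp
          (aeval (Sum.elim (fun i => X (Sum.inl i)) (Sum.elim (fun _ => 0)
            (fun j => X (Sum.inr j))))) := by
      apply algHom_ext
      rintro (i | (i | i))
      · simp [kill]
      · have : i = 0 := Subsingleton.elim _ _
        simp [kill, this]
      · simp [kill]
    exact congrArg (fun φ => φ r) this
  rw [hp] at hz
  rw [hq] at hy
  set base : MvPolynomial T3 ℝ := 1 - X (Sum.inl 0) ^ 2 - X (Sum.inl 1) ^ 2 +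
    X (Sum.inr (Sum.inl 0)) * (1 - X (Sum.inl 0)) +
    X (Sum.inr (Sum.inr 0)) * (1 - X (Sum.inl 1) ^ 2) with hbase
  have hsz : kill (Sum.inr (Sum.inr 0)) (r - base) = 0 := by
    rw [map_sub, hz, hbase]
    simp [kill, pp]
  have hsy : kill (Sum.inr (Sum.inl 0)) (r - base) = 0 := by
    rw [map_sub, hy, hbase]
    simp [kill, qq]
  obtain ⟨k, hk⟩ := eq_mul_mul_of_kill (i := Sum.inr (Sum.inl 0)) (j := Sum.inr (Sum.inr 0))
    (by simp) hsy hsz
  have hbdeg : base.totalDegree ≤ 3 := by
    have hX : ∀ i : T3, (X i : MvPolynomial T3 ℝ).totalDegree ≤ 1 := fun i => (totalDegree_X i).le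
    have hX2 : ∀ i : T3, (X i ^ 2 : MvPolynomial T3 ℝ).totalDegree ≤ 2 := fun i =>
      le_trans (totalDegree_pow _ _) (by have := hX i; omega)
    have h1 : (1 : MvPolynomial T3 ℝ).totalDegree ≤ 0 := by simp
    have a1 : (1 - X (Sum.inl 0) ^ 2 - X (Sum.inl 1) ^ 2 : MvPolynomial T3 ℝ).totalDegree ≤ 3 := by
      refine le_trans (totalDegree_sub _ _) (max_le ?_ (by have := hX2 (Sum.inl 1); omega))
      exact le_trans (totalDegree_sub _ _)
        (max_le (by omega) (by have := hX2 (Sum.inl 0); omega))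
    have a2 : (X (Sum.inr (Sum.inl 0)) * (1 - X (Sum.inl 0)) : MvPolynomial T3 ℝ).totalDegree ≤ 3 := by
      refine le_trans (totalDegree_mul _ _) ?_
      have h3 : (1 - X (Sum.inl 0) : MvPolynomial T3 ℝ).totalDegree ≤ 1 :=
        le_trans (totalDegree_sub _ _) (max_le (by omega) (hX _))
      have := hX (Sum.inr (Sum.inl 0))
      omega
    have a3 : (X (Sum.inr (Sum.inr 0)) * (1 - X (Sum.inl 1) ^ 2) :
        MvPolynomial T3 ℝ).totalDegree ≤ 3 := by
      refine le_trans (totalDegree_mul _ _) ?_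
      have h3 : (1 - X (Sum.inl 1) ^ 2 : MvPolynomial T3 ℝ).totalDegree ≤ 2 :=
        le_trans (totalDegree_sub _ _) (max_le (by omega) (hX2 _))
      have := hX (Sum.inr (Sum.inr 0))
      omega
    exact le_trans (totalDegree_add _ _) (max_le (le_trans (totalDegree_add _ _) (max_le a1 a2)) a3)
  have hkdeg : k.totalDegree ≤ 1 := by
    by_cases hk0 : k = 0
    · rw [hk0]; simp
    · have h1 : (r - base).totalDegree ≤ 3 :=
        le_trans (totalDegree_sub _ _) (max_le hdeg hbdeg)
      rw [hk, totalDegree_mul_of_isDomain (X_ne_zero _) (mul_ne_zero (X_ne_zero _) hk0),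
        totalDegree_mul_of_isDomain (X_ne_zero _) hk0, totalDegree_X, totalDegree_X] at h1
      omega
  obtain ⟨a, b, hab⟩ := affine_of_totalDegree_le_one hkdeg
  refine ⟨a, b (Sum.inl 0), b (Sum.inl 1), b (Sum.inr (Sum.inl 0)), b (Sum.inr (Sum.inr 0)),
    fun v => ?_⟩
  have hr : r = base + X (Sum.inr (Sum.inl 0)) * (X (Sum.inr (Sum.inr 0)) * k) := by
    rw [← hk]; ring
  rw [hr, map_add, map_mul, map_mul, hab v, hbase]
  simp only [map_add, map_sub, map_mul, map_pow, map_one, eval_X, Fintype.sum_sum_type,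
    Fin.sum_univ_two, Fin.sum_univ_one, Fin.isValue]
  ring

end Pool.Agent.N95.RZ
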